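import Mathlib

/-!
# A gcd condition for levelness of lecture hall simplices

If `s` admits an integer vector `c` with `c_1 = 1` and
`c_j s_{j-1} = c_{j-1} s_j + gcd (s_{j-1}, s_j)`, then the `s`-lecture hall simplex is level.

Proof: an interior lattice point `x` of height `h` is `c + y` with `y` in the lecture hall cone. Let
`d₀` be the least height of an interior lattice point and `v_j = min (y_j, (h - d₀) s_j)`. Then `v`
and `y - v` lie in the lecture hall cone, `v` has height at most `h - d₀`, and `u = c + (y - v)` is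
an interior lattice point of height `d₀`.
-/

set_option autoImplicit false

namespace Pool.Agent.Results.MP_aff17b_co.GcdLevel

variable {m : ℕ}

/-- The dilate `t P` of the `s`-lecture hall simplex in `ℝ^n`, `n = m + 1`:
`0 ≤ x_1 / s_1 ≤ x_2 / s_2 ≤ ⋯ ≤ x_n / s_n ≤ t`. For `t = 1` this is the simplex itself. -/
def dilate (s : Fin (m + 1) → ℕ) (t : ℝ) : Set (Fin (m + 1) → ℝ) :=
  {x | 0 ≤ x 0 / s 0 ∧ (∀ i : Fin m, x i.castSucc / s i.castSucc ≤ x i.succ / s i.succ) ∧
    x (Fin.last m) / s (Fin.last m) ≤ t}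

/-- `x` is a lattice point of the cone `C_P` at height `h`. -/
def InCone (s : Fin (m + 1) → ℕ) (h : ℕ) (x : Fin (m + 1) → ℤ) : Prop :=
  (fun i => (x i : ℝ)) ∈ dilate s h

/-- `x` is an interior lattice point of the cone `C_P` at height `h`, that is, `h ≥ 1` and `x` lies
in the interior of `h P`. -/
def InInterior (s : Fin (m + 1) → ℕ) (h : ℕ) (x : Fin (m + 1) → ℤ) : Prop :=
  1 ≤ h ∧ (fun i => (x i : ℝ)) ∈ interior (dilate s h)

/-- The simplex is level: with `d₀` the least height of an interior lattice point of `C_P`, every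
interior lattice point of `C_P` is `u + v` with `u` an interior lattice point of height `d₀` and
`v` a lattice point of `C_P`. -/
def Level (s : Fin (m + 1) → ℕ) : Prop :=
  ∃ d₀, IsLeast {h | ∃ x, InInterior s h x} d₀ ∧
    ∀ h x, InInterior s h x → ∃ u v : Fin (m + 1) → ℤ,
      d₀ ≤ h ∧ InInterior s d₀ u ∧ InCone s (h - d₀) v ∧ x = u + v

section

variable (s : Fin (m + 1) → ℕ) (hs : ∀ i, 0 < s i)

include hs

theorem interior_iff (t : ℝ) (x : Fin (m + 1) → ℝ) : x ∈ interior (dilate s t) ↔
    (0 < x 0 / s 0 ∧ (∀ i : Fin m, x i.castSucc / s i.castSucc < x i.succ / s i.succ) ∧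
    x (Fin.last m) / s (Fin.last m) < t) := by
  have hs' : ∀ i, (0 : ℝ) < s i := fun i => by exact_mod_cast hs i
  constructor
  · intro hx
    -- small perturbations stay in the set
    have hpert : ∀ (i : Fin (m + 1)) (σ : ℝ), ∃ ε : ℝ, 0 < ε ∧
        (x + (ε * σ) • Pi.single i (1 : ℝ)) ∈ dilate s t := by
      intro i σ
      have hcont : Filter.Tendsto (fun ε : ℝ => x + (ε * σ) • Pi.single i (1 : ℝ))
          (nhds 0) (nhds (x + ((0 : ℝ) * σ) • Pi.single i (1 : ℝ))) := by
        apply Continuous.tendsto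
        fun_prop
      have hmem : dilate s t ∈ nhds (x + ((0 : ℝ) * σ) • Pi.single i (1 : ℝ)) := by
        rw [zero_mul, zero_smul, add_zero]
        exact mem_interior_iff_mem_nhds.1 hx
      have hev := hcont hmem
      rw [Filter.mem_map, Metric.mem_nhds_iff] at hev
      obtain ⟨δ, hδ, hball⟩ := hev
      refine ⟨δ / 2, by positivity, ?_⟩
      apply hball
      rw [Metric.mem_ball, dist_zero_right, Real.norm_eq_abs, abs_of_pos (by positivity)]
      linarith
    refine ⟨?_, ?_, ?_⟩
    · obtain ⟨ε, hε, h1, _, _⟩ := hpert 0 (-1)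
      simp only [Pi.add_apply, Pi.smul_apply, Pi.single_eq_same, smul_eq_mul, mul_one,
        mul_neg] at h1
      rw [le_div_iff₀ (hs' 0), zero_mul] at h1
      rw [lt_div_iff₀ (hs' 0), zero_mul]
      linarith
    · intro i
      obtain ⟨ε, hε, _, h2, _⟩ := hpert i.castSucc 1
      have h3 := h2 i
      have hne : i.succ ≠ i.castSucc := (Fin.castSucc_lt_succ).ne'
      simp only [Pi.add_apply, Pi.smul_apply, Pi.single_eq_same, smul_eq_mul, mul_one,
        Pi.single_eq_of_ne hne, mul_zero, add_zero] at h3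
      refine lt_of_lt_of_le ?_ h3
      rw [div_lt_div_iff_of_pos_right (hs' _)]
      linarith
    · obtain ⟨ε, hε, _, _, h3⟩ := hpert (Fin.last m) 1
      simp only [Pi.add_apply, Pi.smul_apply, Pi.single_eq_same, smul_eq_mul, mul_one] at h3
      refine lt_of_lt_of_le ?_ h3
      rw [div_lt_div_iff_of_pos_right (hs' _)]
      linarith
  · rintro ⟨h1, h2, h3⟩
    have hopen : IsOpen ({x : Fin (m + 1) → ℝ | 0 < x 0 / (s 0 : ℝ)} ∩
        ((⋂ i : Fin m, {x : Fin (m + 1) → ℝ |
          x i.castSucc / (s i.castSucc : ℝ) < x i.succ / (s i.succ : ℝ)}) ∩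
        {x : Fin (m + 1) → ℝ | x (Fin.last m) / (s (Fin.last m) : ℝ) < t})) := by
      refine IsOpen.inter ?_ (IsOpen.inter (isOpen_iInter_of_finite fun i => ?_) ?_)
      · exact isOpen_lt (by fun_prop) (by fun_prop)
      · exact isOpen_lt (by fun_prop) (by fun_prop)
      · exact isOpen_lt (by fun_prop) (by fun_prop)
    rw [mem_interior]
    refine ⟨_, fun y hy => ⟨le_of_lt hy.1, fun i => ?_, le_of_lt hy.2.2⟩, hopen, h1,
      Set.mem_iInter.2 h2, h3⟩
    exact le_of_lt (Set.mem_iInter.1 hy.2.1 i)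

theorem inCone_iff (h : ℕ) (x : Fin (m + 1) → ℤ) : InCone s h x ↔
    (0 ≤ x 0 ∧ (∀ i : Fin m, x i.castSucc * s i.succ ≤ x i.succ * s i.castSucc) ∧
    x (Fin.last m) ≤ h * s (Fin.last m)) := by
  have hs' : ∀ i, (0 : ℝ) < s i := fun i => by exact_mod_cast hs i
  unfold InCone dilate
  simp only [Set.mem_ofPred_eq]
  refine and_congr ?_ (and_congr (forall_congr' fun i => ?_) ?_)
  · rw [le_div_iff₀ (hs' 0), zero_mul]
    exact_mod_cast Iff.rfl
  · rw [div_le_div_iff₀ (hs' _) (hs' _)]
    exact_mod_cast Iff.rfl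
  · rw [div_le_iff₀ (hs' _)]
    exact_mod_cast Iff.rfl

theorem inInterior_iff (h : ℕ) (x : Fin (m + 1) → ℤ) : InInterior s h x ↔
    (1 ≤ h ∧ 0 < x 0 ∧ (∀ i : Fin m, x i.castSucc * s i.succ < x i.succ * s i.castSucc) ∧
    x (Fin.last m) < h * s (Fin.last m)) := by
  have hs' : ∀ i, (0 : ℝ) < s i := fun i => by exact_mod_cast hs i
  unfold InInterior
  rw [interior_iff s hs]
  refine and_congr Iff.rfl (and_congr ?_ (and_congr (forall_congr' fun i => ?_) ?_))
  · rw [lt_div_iff₀ (hs' 0), zero_mul]
    exact_mod_cast Iff.rfl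
  · rw [div_lt_div_iff₀ (hs' _) (hs' _)]
    exact_mod_cast Iff.rfl
  · rw [div_lt_iff₀ (hs' _)]
    exact_mod_cast Iff.rfl

theorem level_of (c : Fin (m + 1) → ℤ) (hc0 : c 0 = 1)
    (hc : ∀ i : Fin m, c i.succ * s i.castSucc = c i.castSucc * s i.succ +
      Nat.gcd (s i.castSucc) (s i.succ)) : Level s := by
  have hsZ : ∀ i, (0 : ℤ) < s i := fun i => by exact_mod_cast hs i
  have hgpos : ∀ i : Fin m, (0 : ℤ) < Nat.gcd (s i.castSucc) (s i.succ) := fun i => by
    exact_mod_cast Nat.gcd_pos_of_pos_left _ (hs _)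
  -- `c` has positive entries
  have hcpos : ∀ i : Fin (m + 1), 0 < c i := by
    intro i
    induction i using Fin.induction with
    | zero => rw [hc0]; exact one_pos
    | succ i ih =>
      have h1 := hc i
      have h2 : 0 < c i.succ * s i.castSucc := by
        rw [h1]
        have := mul_pos ih (hsZ i.succ)
        have := hgpos i
        omega
      exact pos_of_mul_pos_left h2 (hsZ _).le
  -- interior points are `c + y`
  have hgor : ∀ h x, InInterior s h x → 0 ≤ x 0 - c 0 ∧
      ∀ i : Fin m, (x i.castSucc - c i.castSucc) * s i.succ ≤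
        (x i.succ - c i.succ) * s i.castSucc := by
    intro h x hx
    rw [inInterior_iff s hs] at hx
    obtain ⟨_, h1, h2, _⟩ := hx
    refine ⟨by rw [hc0]; omega, fun i => ?_⟩
    have h3 : (Nat.gcd (s i.castSucc) (s i.succ) : ℤ) ∣
        x i.succ * s i.castSucc - x i.castSucc * s i.succ := by
      apply dvd_sub
      · exact Dvd.dvd.mul_left (by exact_mod_cast Nat.gcd_dvd_left _ _) _
      · exact Dvd.dvd.mul_left (by exact_mod_cast Nat.gcd_dvd_right _ _) _
    have h4 : (Nat.gcd (s i.castSucc) (s i.succ) : ℤ) ≤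
        x i.succ * s i.castSucc - x i.castSucc * s i.succ :=
      Int.le_of_dvd (by have := h2 i; omega) h3
    have h5 := hc i
    rw [sub_mul, sub_mul]
    omega
  -- points of the cone are nonnegative
  have hnn : ∀ y : Fin (m + 1) → ℤ, 0 ≤ y 0 →
      (∀ i : Fin m, y i.castSucc * s i.succ ≤ y i.succ * s i.castSucc) → ∀ i, 0 ≤ y i := by
    intro y h0 h1 i
    induction i using Fin.induction with
    | zero => exact h0
    | succ i ih =>
      have h2 := h1 i
      have h3 : 0 ≤ y i.castSucc * s i.succ := mul_nonneg ih (hsZ _).le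
      exact nonneg_of_mul_nonneg_left (h3.trans h2) (hsZ _)
  -- the least height
  have hex : ∃ h : ℕ, c (Fin.last m) < h * s (Fin.last m) := by
    refine ⟨(c (Fin.last m)).toNat + 1, ?_⟩
    have h1 : c (Fin.last m) = ((c (Fin.last m)).toNat : ℤ) := by
      rw [Int.toNat_of_nonneg (hcpos _).le]
    have h2 : (1 : ℤ) ≤ s (Fin.last m) := hsZ _
    have h3 : (0 : ℤ) < ((c (Fin.last m)).toNat : ℤ) + 1 := by positivity
    push_cast
    nlinarith
  classical
  obtain ⟨d₀, hd₀, hmin⟩ : ∃ d₀ : ℕ, c (Fin.last m) < d₀ * s (Fin.last m) ∧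
      ∀ h : ℕ, c (Fin.last m) < h * s (Fin.last m) → d₀ ≤ h :=
    ⟨Nat.find hex, Nat.find_spec hex, fun h hh => Nat.find_min' hex hh⟩
  have hd1 : 1 ≤ d₀ := by
    by_contra h0
    have h1 : d₀ = 0 := by omega
    rw [h1] at hd₀
    have := hcpos (Fin.last m)
    simp at hd₀
    omega
  have hcint : InInterior s d₀ c := by
    rw [inInterior_iff s hs]
    refine ⟨hd1, hcpos 0, fun i => ?_, hd₀⟩
    have := hc i
    have := hgpos i
    omega
  have hleast : IsLeast {h | ∃ x, InInterior s h x} d₀ := by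
    refine ⟨⟨c, hcint⟩, ?_⟩
    rintro h ⟨x, hx⟩
    apply hmin
    obtain ⟨g1, g2⟩ := hgor h x hx
    have h1 := hnn (fun i => x i - c i) g1 g2 (Fin.last m)
    rw [inInterior_iff s hs] at hx
    have h2 := hx.2.2.2
    omega
  refine ⟨d₀, hleast, ?_⟩
  intro h x hx
  have hle : d₀ ≤ h := hleast.2 ⟨x, hx⟩
  obtain ⟨g1, g2⟩ := hgor h x hx
  have gnn := hnn (fun i => x i - c i) g1 g2
  have hx' := (inInterior_iff s hs h x).1 hx
  obtain ⟨N, hN⟩ : ∃ N : ℕ, h = d₀ + N := ⟨h - d₀, by omega⟩
  let v : Fin (m + 1) → ℤ := fun i => min (x i - c i) (N * s i)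
  have hv : ∀ i, v i = min (x i - c i) (N * s i) := fun i => rfl
  refine ⟨x - v, v, hle, ?_, ?_, by simp⟩
  · rw [inInterior_iff s hs]
    refine ⟨hd1, ?_, fun i => ?_, ?_⟩
    · have h1 : v 0 ≤ x 0 - c 0 := min_le_left _ _
      have h2 := hcpos 0
      simp only [Pi.sub_apply]
      omega
    · -- `x - v = c + max (y - N s, 0)`
      have key : (x i.castSucc - c i.castSucc - v i.castSucc) * s i.succ ≤
          (x i.succ - c i.succ - v i.succ) * s i.castSucc := by
        have hg := g2 i
        have p1 := hsZ i.castSucc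
        have p2 := hsZ i.succ
        rcases le_total (x i.castSucc - c i.castSucc) (N * s i.castSucc) with h1 | h1
        · rw [hv i.castSucc, min_eq_left h1, sub_self, zero_mul]
          exact mul_nonneg (by have := min_le_left (x i.succ - c i.succ) (N * s i.succ : ℤ)
                               rw [hv]; omega) p1.le
        · have h2 : (N * s i.succ : ℤ) ≤ x i.succ - c i.succ := by
            have h3 : (N * s i.castSucc : ℤ) * s i.succ ≤
                (x i.castSucc - c i.castSucc) * s i.succ := mul_le_mul_of_nonneg_right h1 p2.le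
            have h4 : (N * s i.succ : ℤ) * s i.castSucc ≤
                (x i.succ - c i.succ) * s i.castSucc := by
              calc (N * s i.succ : ℤ) * s i.castSucc = (N * s i.castSucc : ℤ) * s i.succ := by ring
                _ ≤ _ := h3.trans hg
            exact le_of_mul_le_mul_right h4 p1
          rw [hv i.castSucc, hv i.succ, min_eq_right h1, min_eq_right h2]
          nlinarith
      have h5 := hc i
      have h6 := hgpos i
      simp only [Pi.sub_apply]
      nlinarith
    · have h1 := hx'.2.2.2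
      rw [hN] at h1
      push_cast at h1
      simp only [Pi.sub_apply]
      rw [hv]
      rcases le_total (x (Fin.last m) - c (Fin.last m)) (N * s (Fin.last m)) with h2 | h2
      · rw [min_eq_left h2]
        omega
      · rw [min_eq_right h2]
        nlinarith
  · rw [inCone_iff s hs]
    have hsub : h - d₀ = N := by omega
    rw [hsub]
    refine ⟨?_, fun i => ?_, min_le_right _ _⟩
    · exact le_min g1 (mul_nonneg (by positivity) (hsZ 0).le)
    · have p1 := hsZ i.castSucc
      have p2 := hsZ i.succ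
      have hg := g2 i
      rw [hv i.succ]
      rcases le_total (x i.succ - c i.succ) (N * s i.succ) with h2 | h2
      · rw [min_eq_left h2]
        refine le_trans ?_ hg
        exact mul_le_mul_of_nonneg_right (min_le_left _ _) p2.le
      · rw [min_eq_right h2]
        calc v i.castSucc * s i.succ ≤ (N * s i.castSucc : ℤ) * s i.succ :=
              mul_le_mul_of_nonneg_right (min_le_right _ _) p2.le
          _ = (N * s i.succ : ℤ) * s i.castSucc := by ring

end

/-- **The gcd condition implies levelness.** -/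
theorem result (m : ℕ) (s : Fin (m + 1) → ℕ) (hs : ∀ i, 1 ≤ s i)
    (h : ∃ c : Fin (m + 1) → ℤ, c 0 = 1 ∧ ∀ i : Fin m,
      c i.succ * s i.castSucc = c i.castSucc * s i.succ + Nat.gcd (s i.castSucc) (s i.succ)) :
    Level s := by
  obtain ⟨c, hc0, hc⟩ := h
  exact level_of s hs c hc0 hc

end Pool.Agent.Results.MP_aff17b_co.GcdLevel
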